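import Mathlib

/-!
# Kolchin's theorem for unipotent matrix groups over the rational numbers, in word form
-/

namespace Pool.Agent.Helper42.AutF

open Polynomial

/-- a matrix all of whose polynomial expressions without constant term lie in a space of matrices
of trace zero is nilpotent -/
private theorem nilp_of_trace {m : Nat} (S : Submodule ℚ (Matrix (Fin m) (Fin m) ℚ))
    (hmul : ∀ A ∈ S, ∀ B ∈ S, A * B ∈ S) (htr : ∀ A ∈ S, A.trace = 0)
    {A : Matrix (Fin m) (Fin m) ℚ} (hA : A ∈ S) : IsNilpotent A := by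
  have hpoly : ∀ q : ℚ[X], aeval A (q * X) ∈ S := by
    intro q
    induction q using Polynomial.induction_on' with
    | add p q hp hq =>
      rw [add_mul, map_add]
      exact S.add_mem hp hq
    | monomial n a =>
      rw [← C_mul_X_pow_eq_monomial, mul_assoc, ← pow_succ, map_mul, aeval_C, map_pow, aeval_X,
        ← Algebra.smul_def]
      refine S.smul_mem _ ?_
      induction n with
      | zero => simpa using hA
      | succ n ih =>
        rw [pow_succ]
        exact hmul _ ih _ hA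
  have hp0 : A.charpoly ≠ 0 := A.charpoly_monic.ne_zero
  obtain ⟨g, hg, hgX⟩ := Polynomial.exists_eq_pow_rootMultiplicity_mul_and_not_dvd A.charpoly hp0 0
  rw [C_0, sub_zero] at hg hgX
  set a := A.charpoly.rootMultiplicity 0 with ha
  have hco : IsCoprime (X ^ (a + 1)) g :=
    IsCoprime.pow_left ((Polynomial.irreducible_X (R := ℚ)).coprime_iff_not_dvd.2 hgX)
  obtain ⟨u, v, huv⟩ := hco
  have hCH : aeval A (X ^ (a + 1) * g) = 0 := by
    have : (X ^ (a + 1) * g : ℚ[X]) = X * A.charpoly := by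
      rw [hg, pow_succ]
      ring
    rw [this, map_mul, Matrix.aeval_self_charpoly, mul_zero]
  set E := aeval A (u * X ^ (a + 1)) with hE
  have hES : E ∈ S := by
    have : (u * X ^ (a + 1) : ℚ[X]) = u * X ^ a * X := by rw [pow_succ]; ring
    rw [hE, this]
    exact hpoly _
  have hidem : E * E = E := by
    have h1 : (u * X ^ (a + 1)) * (u * X ^ (a + 1)) =
        u * X ^ (a + 1) - u * v * (X ^ (a + 1) * g) := by
      linear_combination (u * X ^ (a + 1)) * huv
    rw [hE, ← map_mul, h1, map_sub, map_mul _ (u * v), hCH, mul_zero, sub_zero]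
  have hE0 : E = 0 := by
    have h1 : IsIdempotentElem (Matrix.toLin' E) := by
      unfold IsIdempotentElem
      rw [Module.End.mul_eq_comp, ← Matrix.toLin'_mul, hidem]
    have h2 : LinearMap.trace ℚ (Fin m → ℚ) (Matrix.toLin' E) = 0 := by
      rw [Matrix.trace_toLin'_eq]
      exact htr E hES
    have h3 := LinearMap.IsIdempotentElem.eq_zero_of_trace_eq_zero h1 h2
    exact (LinearEquiv.map_eq_zero_iff _).1 h3
  refine ⟨a + 1, ?_⟩
  have h1 : (X ^ (a + 1) : ℚ[X]) = X ^ (a + 1) * (u * X ^ (a + 1)) + v * (X ^ (a + 1) * g) := by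
    linear_combination (-(X ^ (a + 1) : ℚ[X])) * huv
  have h2 := congrArg (aeval A) h1
  rw [map_add, map_mul _ (X ^ (a + 1)) (u * X ^ (a + 1)), ← hE, hE0, mul_zero, zero_add,
    map_mul _ v, hCH, mul_zero, map_pow, aeval_X] at h2
  exact h2

attribute [local instance 100] LieRing.ofAssociativeRing

theorem M2 {m : Nat} (U : Subgroup (GL (Fin m) ℚ))
    (hU : ∀ u ∈ U, IsNilpotent ((u : Matrix (Fin m) (Fin m) ℚ) - 1)) :
    ∃ K : Nat, ∀ L : List (Matrix (Fin m) (Fin m) ℚ), L.length = K →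
      (∀ A ∈ L, ∃ u ∈ U, A = (u : Matrix (Fin m) (Fin m) ℚ) - 1) → L.prod = 0 := by
  set T : Set (Matrix (Fin m) (Fin m) ℚ) :=
    {A | ∃ u ∈ U, A = (u : Matrix (Fin m) (Fin m) ℚ) - 1} with hT
  set S : Submodule ℚ (Matrix (Fin m) (Fin m) ℚ) := Submodule.span ℚ T with hS
  have hmul : ∀ A ∈ S, ∀ B ∈ S, A * B ∈ S := by
    intro A hA B hB
    have h1 : A * B ∈ S * S := Submodule.mul_mem_mul hA hB
    have h2 : S * S ≤ S := by
      rw [hS, Submodule.span_mul_span, Submodule.span_le]
      rintro _ ⟨_, ⟨u, hu, rfl⟩, _, ⟨v, hv, rfl⟩, rfl⟩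
      have e : ((u : Matrix (Fin m) (Fin m) ℚ) - 1) * ((v : Matrix (Fin m) (Fin m) ℚ) - 1) =
          (((u * v : GL (Fin m) ℚ) : Matrix (Fin m) (Fin m) ℚ) - 1) -
            ((u : Matrix (Fin m) (Fin m) ℚ) - 1) - ((v : Matrix (Fin m) (Fin m) ℚ) - 1) := by
        rw [Units.val_mul]
        noncomm_ring
      change ((u : Matrix (Fin m) (Fin m) ℚ) - 1) * ((v : Matrix (Fin m) (Fin m) ℚ) - 1) ∈
        Submodule.span ℚ T
      rw [e]
      exact Submodule.sub_mem _ (Submodule.sub_mem _
        (Submodule.subset_span ⟨u * v, U.mul_mem hu hv, rfl⟩)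
        (Submodule.subset_span ⟨u, hu, rfl⟩)) (Submodule.subset_span ⟨v, hv, rfl⟩)
    exact h2 h1
  have htr : ∀ A ∈ S, A.trace = 0 := by
    intro A hA
    induction hA using Submodule.span_induction with
    | mem A h =>
      obtain ⟨u, hu, rfl⟩ := h
      exact (Matrix.isNilpotent_trace_of_isNilpotent (hU u hu)).eq_zero
    | zero => exact Matrix.trace_zero _ _
    | add A B _ _ hA hB => rw [Matrix.trace_add, hA, hB, add_zero]
    | smul c A _ hA => rw [Matrix.trace_smul, hA, smul_zero]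
  let Lg : LieSubalgebra ℚ (Module.End ℚ (Fin m → ℚ)) :=
    { S.map (Matrix.toLin' (R := ℚ) (m := Fin m) (n := Fin m)).toLinearMap with
      lie_mem' := by
        rintro _ _ ⟨A, hA, rfl⟩ ⟨B, hB, rfl⟩
        refine ⟨A * B - B * A, S.sub_mem (hmul A hA B hB) (hmul B hB A hA), ?_⟩
        change Matrix.toLin' (A * B - B * A) = ⁅Matrix.toLin' A, Matrix.toLin' B⁆
        rw [map_sub, Matrix.toLin'_mul, Matrix.toLin'_mul]
        rfl }
  have hnil : LieModule.IsNilpotent Lg (Fin m → ℚ) := by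
    rw [LieModule.isNilpotent_iff_forall' (R := ℚ)]
    rintro ⟨_, ⟨A, hA, rfl⟩⟩
    obtain ⟨n, hn⟩ := nilp_of_trace S hmul htr hA
    refine ⟨n, ?_⟩
    change (Matrix.toLin' A) ^ n = 0
    rw [← Matrix.toLin'_pow, hn, map_zero]
  obtain ⟨K, hK⟩ := (LieModule.isNilpotent_iff ℚ Lg (Fin m → ℚ)).1 hnil
  have key : ∀ L : List (Matrix (Fin m) (Fin m) ℚ), (∀ A ∈ L, A ∈ T) → ∀ v : Fin m → ℚ,
      Matrix.toLin' L.prod v ∈ LieModule.lowerCentralSeries ℚ Lg (Fin m → ℚ) L.length := by
    intro L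
    induction L with
    | nil => intro _ v; simp
    | cons A L ih =>
      intro hL v
      rw [List.prod_cons, List.length_cons, LieModule.lowerCentralSeries_succ,
        Matrix.toLin'_mul_apply]
      have hA : A ∈ T := hL A (List.mem_cons_self ..)
      have hv := ih (fun B hB => hL B (List.mem_cons_of_mem _ hB)) v
      let x : Lg := ⟨Matrix.toLin' A, ⟨A, Submodule.subset_span hA, rfl⟩⟩
      have := LieSubmodule.lie_mem_lie (I := (⊤ : LieIdeal ℚ Lg)) (LieSubmodule.mem_top x) hv
      exact this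
  refine ⟨K, fun L hL hLT => ?_⟩
  have h0 : Matrix.toLin' L.prod = 0 := by
    apply LinearMap.ext
    intro v
    have := key L hLT v
    rw [hL, hK, LieSubmodule.mem_bot] at this
    simpa using this
  exact (LinearEquiv.map_eq_zero_iff _).1 h0

end Pool.Agent.Helper42.AutF
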