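import Mathlib

/-!
# Eigenvalues are roots of unity, by transfer
-/

namespace Pool.Agent.Helper42.AutF

theorem M5 {G : Type*} [Group G] (H : Subgroup G) (hH : H.index ≠ 0) {m : Nat}
    (f : H →* GL (Fin m) ℤ) (z : G)
    (hz : (⟨z, Subgroup.mem_centralizer_singleton_iff.mpr rfl⟩ : Subgroup.centralizer {z}) ∈
      commutator (Subgroup.centralizer {z})) :
    ∃ e : Nat, 0 < e ∧ ∃ he : z ^ e ∈ H, ∀ μ : ℂ,
      ((f ⟨z ^ e, he⟩ : Matrix (Fin m) (Fin m) ℤ).map (Int.castRingHom ℂ)).charpoly.IsRoot μ →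
        ∃ k : Nat, 0 < k ∧ μ ^ k = 1 := by
  classical
  set C : Subgroup G := Subgroup.centralizer {z} with hC
  set z' : C := ⟨z, Subgroup.mem_centralizer_singleton_iff.mpr rfl⟩ with hz'
  have hfi : H.FiniteIndex := ⟨hH⟩
  let H' : Subgroup C := H.subgroupOf C
  have : H'.FiniteIndex := inferInstanceAs (H.subgroupOf C).FiniteIndex
  have hcomm : ∀ c : C, (c : G) * z = z * c := fun c =>
    Subgroup.mem_centralizer_singleton_iff.1 c.2
  have key : ∀ (k : ℕ) (g₀ : C), g₀⁻¹ * z' ^ k * g₀ ∈ H' → g₀⁻¹ * z' ^ k * g₀ = z' ^ k := by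
    intro k g₀ _
    have h1 : Commute g₀ z' := by
      change g₀ * z' = z' * g₀
      exact Subtype.ext (hcomm g₀)
    have h2 : Commute g₀ (z' ^ k) := h1.pow_right k
    rw [mul_assoc, ← h2.eq, inv_mul_cancel_left]
  have hmem : z' ^ H'.index ∈ H' := MonoidHom.transfer_eq_pow_aux z' key
  have he : z ^ H'.index ∈ H := by
    have := Subgroup.mem_subgroupOf.1 hmem
    simpa using this
  have hpos : 0 < H'.index := Nat.pos_of_ne_zero Subgroup.FiniteIndex.index_ne_zero
  refine ⟨H'.index, hpos, he, fun μ hμ => ?_⟩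
  -- the complex representation
  let ι : H →* Matrix (Fin m) (Fin m) ℂ :=
    ((Int.castRingHom ℂ).mapMatrix.toMonoidHom.comp (Units.coeHom _)).comp f
  have hι : ∀ h : H, ι h = (f h : Matrix (Fin m) (Fin m) ℤ).map (Int.castRingHom ℂ) :=
    fun h => rfl
  let zH : H := ⟨z ^ H'.index, he⟩
  let E : Submodule ℂ (Fin m → ℂ) := Module.End.eigenspace (Matrix.toLin' (ι zH)) μ
  let j : H' →* H := (Subgroup.inclusion (le_refl H)).comp
    { toFun := fun c => ⟨((c : C) : G), Subgroup.mem_subgroupOf.1 c.2⟩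
      map_one' := rfl
      map_mul' := fun _ _ => rfl }
  have hstab : ∀ c : H', ∀ v ∈ E, Matrix.toLin' (ι (j c)) v ∈ E := by
    intro c v hv
    have h1 : j c * zH = zH * j c := by
      apply Subtype.ext
      change ((c : C) : G) * z ^ H'.index = z ^ H'.index * ((c : C) : G)
      exact (Commute.pow_right (hcomm c) _).eq
    have h2 : ι (j c) * ι zH = ι zH * ι (j c) := by
      rw [← map_mul, ← map_mul, h1]
    rw [Module.End.mem_eigenspace_iff] at hv ⊢
    rw [← Matrix.toLin'_mul_apply, ← h2, Matrix.toLin'_mul_apply, hv, map_smul]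
  let R : H' →* Module.End ℂ E :=
    { toFun := fun c => (Matrix.toLin' (ι (j c))).restrict (hstab c)
      map_one' := by
        ext v
        simp [LinearMap.restrict_apply]
      map_mul' := fun a b => by
        ext1 v
        apply Subtype.ext
        change Matrix.toLin' (ι (j (a * b))) v = Matrix.toLin' (ι (j a)) (Matrix.toLin' (ι (j b)) v)
        rw [map_mul, map_mul, Matrix.toLin'_mul_apply] }
  let χ : H' →* ℂˣ := (LinearMap.det.comp R).toHomUnits
  have h1 : MonoidHom.transfer χ z' = 1 := by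
    have := Abelianization.commutator_subset_ker (MonoidHom.transfer χ) hz
    exact this
  rw [MonoidHom.transfer_eq_pow χ z' key] at h1
  have h2 : LinearMap.det (R ⟨z' ^ H'.index, hmem⟩) = 1 := by
    have := congrArg Units.val h1
    simpa [χ] using this
  have h3 : R ⟨z' ^ H'.index, hmem⟩ = μ • LinearMap.id := by
    ext1 v
    apply Subtype.ext
    have hv : (v : Fin m → ℂ) ∈ E := v.2
    rw [Module.End.mem_eigenspace_iff] at hv
    have hj : j ⟨z' ^ H'.index, hmem⟩ = zH := by
      apply Subtype.ext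
      change ((z' ^ H'.index : C) : G) = z ^ H'.index
      rw [Subgroup.coe_pow]
    change Matrix.toLin' (ι (j ⟨z' ^ H'.index, hmem⟩)) v = μ • (v : Fin m → ℂ)
    rw [hj, hv]
  rw [h3, LinearMap.det_smul, LinearMap.det_id, mul_one] at h2
  refine ⟨Module.finrank ℂ E, ?_, h2⟩
  have hne : E ≠ ⊥ := by
    have h4 : Module.End.HasEigenvalue (Matrix.toLin' (ι zH)) μ := by
      rw [Module.End.hasEigenvalue_iff_isRoot_charpoly, Matrix.charpoly_toLin', hι]
      exact hμ
    exact h4
  exact Module.finrank_pos_iff.2 ((Submodule.nontrivial_iff_ne_bot).2 hne)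

end Pool.Agent.Helper42.AutF
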